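import Pool.Agent.H74.Pm2

namespace Pool.Agent.Results.MP_180e15_co.Bound
open Finset

variable {P : Type} [Fintype P] [PartialOrder P]

open Classical in
/-- All labelings: injective maps (hence bijections) from `P` to `{1, …, n}`, `n = |P|`. -/
noncomputable def labelings (P : Type) [Fintype P] : Finset (P → ℕ) :=
  (Fintype.piFinset (fun _ => Icc 1 (Fintype.card P))).filter Function.Injective

open Classical in
/-- The `L`-successor of `x`: the element above `x` of least label (`x` itself if `x` is maximal). -/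
noncomputable def succ (L : P → ℕ) (x : P) : P :=
  if h : ∃ y, x < y ∧ ∀ z, x < z → L y ≤ L z then h.choose else x

/-- `x` lies on the promotion chain of `L`. -/
def OnChain (L : P → ℕ) (x : P) : Prop := ∃ v k, L v = 1 ∧ (succ L)^[k] v = x

open Classical in
/-- Extended promotion. -/
noncomputable def promo (L : P → ℕ) (x : P) : ℕ :=
  if OnChain L x then (if IsMax x then Fintype.card P else L (succ L x) - 1) else L x - 1

open Classical in
/-- Degree of noninvertibility of extended promotion. -/
noncomputable def deg (P : Type) [Fintype P] [PartialOrder P] : ℚ :=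
  (∑ M ∈ labelings P, ((((labelings P).filter (fun L => promo L = M)).card : ℚ)) ^ 2)
    / (labelings P).card

open Pool.Agent.H74.Pm

omit [PartialOrder P] in
theorem mem_lab {L : P → ℕ} : L ∈ labelings P ↔
    (∀ x, 1 ≤ L x ∧ L x ≤ Fintype.card P) ∧ Function.Injective L := by
  simp [labelings]

theorem succ_spec (L : P → ℕ) {x : P} (hx : ¬ IsMax x) :
    x < succ L x ∧ ∀ z, x < z → L (succ L x) ≤ L z := by
  classical
  have h : ∃ y, x < y ∧ ∀ z, x < z → L y ≤ L z := by
    obtain ⟨b, hb⟩ := not_isMax_iff.1 hx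
    obtain ⟨y, hy, hm⟩ := exists_min_image (univ.filter (x < ·)) L ⟨b, by simpa using hb⟩
    exact ⟨y, by simpa using hy, fun z hz => hm z (by simpa using hz)⟩
  unfold succ
  rw [dif_pos h]
  exact h.choose_spec

theorem le_succ (L : P → ℕ) (x : P) : x ≤ succ L x := by
  unfold succ
  split_ifs with h
  · exact h.choose_spec.1.le
  · exact le_rfl

theorem le_iter (L : P → ℕ) (k : ℕ) (x : P) : x ≤ (succ L)^[k] x := by
  induction k with
  | zero => exact le_rfl
  | succ k ih => rw [Function.iterate_succ_apply']; exact ih.trans (le_succ L _)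

theorem iter_mono (L : P → ℕ) (x : P) {i j : ℕ} (h : i ≤ j) : (succ L)^[i] x ≤ (succ L)^[j] x := by
  obtain ⟨d, rfl⟩ := Nat.exists_eq_add_of_le h
  rw [add_comm, Function.iterate_add_apply]
  exact le_iter L d _

theorem chain_succ {L : P → ℕ} {x : P} (h : OnChain L x) : OnChain L (succ L x) := by
  obtain ⟨v, k, a, b⟩ := h
  exact ⟨v, k + 1, a, by rw [Function.iterate_succ_apply', b]⟩

theorem chain_cmp {L : P → ℕ} (hL : Function.Injective L) {x y : P} (hx : OnChain L x)
    (hy : OnChain L y) : y ≤ x ∨ succ L x ≤ y := by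
  obtain ⟨v, i, a, rfl⟩ := hx
  obtain ⟨w, j, b, rfl⟩ := hy
  obtain rfl : v = w := hL (a.trans b.symm)
  rcases le_or_gt j i with h | h
  · exact Or.inl (iter_mono L v h)
  · right
    rw [← Function.iterate_succ_apply' (succ L) i v]
    exact iter_mono L v h

theorem chain_pred {L : P → ℕ} (hL : Function.Injective L) {x : P} (hx : OnChain L x) :
    (L x = 1 ∧ ∀ y, OnChain L y → x ≤ y) ∨ ∃ v, OnChain L v ∧ v < x ∧ succ L v = x := by
  obtain ⟨v, k, a, rfl⟩ := hx
  induction k with
  | zero =>
    refine Or.inl ⟨a, ?_⟩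
    rintro y ⟨w, j, b, rfl⟩
    obtain rfl : v = w := hL (a.trans b.symm)
    exact le_iter L j v
  | succ k ih =>
    rw [Function.iterate_succ_apply']
    rcases (le_succ L ((succ L)^[k] v)).lt_or_eq with h | h
    · exact Or.inr ⟨_, ⟨v, k, a, rfl⟩, h, rfl⟩
    · rw [← h]; exact ih

theorem exists_one [Nonempty P] {L : P → ℕ} (hL : L ∈ labelings P) : ∃ v, L v = 1 := by
  rw [mem_lab] at hL
  obtain ⟨z, _, e⟩ := surj_on_of_inj_on_of_card_le (s := univ) (t := Icc 1 (Fintype.card P))
    (fun x _ => L x) (fun x _ => mem_Icc.2 (hL.1 x)) (fun x y _ _ e => hL.2 e)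
    (by simp) 1 (mem_Icc.2 ⟨le_rfl, Fintype.card_pos⟩)
  exact ⟨z, e.symm⟩

open Classical in
theorem fiber_le [Nonempty P] (M : P → ℕ) : ((labelings P).filter (fun L => promo L = M)).card
    ≤ (Ch (Fintype.card P) univ univ M).card := by
  refine card_le_card_of_injOn (fun L => univ.filter (OnChain L)) ?_ ?_
  · intro L hL
    obtain ⟨h1, rfl⟩ := mem_filter.1 (mem_coe.1 hL)
    obtain ⟨v, hv⟩ := exists_one h1
    rw [mem_lab] at h1
    refine mem_coe.2 (mem_Ch.2 ⟨subset_univ _, fun x hx y hy => ?_, fun x hx y _ h => ?_, ?_⟩)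
    · rcases chain_cmp h1.2 (mem_filter.1 hx).2 (mem_filter.1 hy).2 with h | h
      · exact Or.inr h
      · exact Or.inl ((le_succ L x).trans h)
    · have cx := (mem_filter.1 hx).2
      have nx : ¬ IsMax x := not_isMax_of_lt h
      obtain ⟨s1, s2⟩ := succ_spec L nx
      have b1 := h1.1 (succ L x)
      unfold promo
      rw [if_pos cx, if_neg nx]
      by_cases cy : OnChain L y
      · rw [if_pos cy]
        split_ifs with my
        · omega
        · obtain ⟨t1, _⟩ := succ_spec L my
          have a1 := s2 _ (h.trans t1)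
          have a2 : L (succ L x) ≠ L (succ L y) := by
            intro e
            rcases chain_cmp h1.2 cx cy with c | c
            · exact absurd h (not_lt_of_ge c)
            · exact absurd (h1.2 e ▸ c) (not_le_of_gt t1)
          omega
      · rw [if_neg cy]
        have a1 := s2 y h
        have a2 : L (succ L x) ≠ L y := fun e => cy (h1.2 e ▸ chain_succ cx)
        omega
    · obtain ⟨t, ht⟩ := (univ.filter (OnChain L)).exists_maximal
        ⟨v, mem_filter.2 ⟨mem_univ _, v, 0, hv, rfl⟩⟩
      have ct := (mem_filter.1 ht.1).2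
      refine ⟨t, ht.1, ?_⟩
      unfold promo
      rw [if_pos ct, if_pos]
      by_contra nm
      have := (succ_spec L nm).1
      exact not_le_of_gt this (ht.2 (mem_filter.2 ⟨mem_univ _, chain_succ ct⟩) this.le)
  · intro L hL L' hL' e
    obtain ⟨h1, e1⟩ := mem_filter.1 (mem_coe.1 hL)
    obtain ⟨h2, e2⟩ := mem_filter.1 (mem_coe.1 hL')
    rw [mem_lab] at h1 h2
    have hc : ∀ x, OnChain L x ↔ OnChain L' x := fun x => by
      simpa using Finset.ext_iff.1 e x
    have hp : ∀ x, promo L x = promo L' x := fun x => by rw [e1, e2]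
    funext x
    have b1 := h1.1 x
    have b2 := h2.1 x
    by_cases cx : OnChain L x
    · rcases chain_pred h1.2 cx with ⟨a1, a2⟩ | ⟨v, a1, a2, a3⟩ <;>
        rcases chain_pred h2.2 ((hc x).1 cx) with ⟨c1, c2⟩ | ⟨w, c1, c2, c3⟩
      · rw [a1, c1]
      · exact absurd (a2 w ((hc w).2 c1)) (not_le_of_gt c2)
      · exact absurd (c2 v ((hc v).1 a1)) (not_le_of_gt a2)
      · have : v = w := by
          rcases chain_cmp h1.2 a1 ((hc w).2 c1) with d | d
          · rcases chain_cmp h2.2 c1 ((hc v).1 a1) with f | f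
            · exact le_antisymm f d
            · exact absurd (c3 ▸ f) (not_le_of_gt a2)
          · exact absurd (a3 ▸ d) (not_le_of_gt c2)
        subst this
        have := hp v
        unfold promo at this
        rw [if_pos a1, if_pos c1, if_neg (not_isMax_of_lt a2), if_neg (not_isMax_of_lt a2), a3,
          c3] at this
        omega
    · have := hp x
      unfold promo at this
      rw [if_neg cx, if_neg (fun h => cx ((hc x).2 h))] at this
      omega

theorem result (P : Type) [Fintype P] [PartialOrder P] [Nonempty P] :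
    deg P ≤ ((Fintype.card P : ℚ) + 2) * (Fintype.card P + 1) / 6 := by
  classical
  obtain ⟨m, hm⟩ : ∃ m, Fintype.card P = m + 1 := ⟨Fintype.card P - 1, by
    have : 0 < Fintype.card P := Fintype.card_pos
    omega⟩
  have h1 := main (Fintype.card P) m (univ : Finset P) univ 1 subset_rfl (by simpa using hm)
    (by omega)
  have h2 : ∑ M ∈ labelings P, ((((labelings P).filter (fun L => promo L = M)).card : ℤ)) ^ 2
      ≤ ∑ M ∈ Lam (Fintype.card P) (univ : Finset P) 1,
        ((Ch (Fintype.card P) univ univ M).card : ℤ) ^ 2 := by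
    refine le_trans (sum_le_sum fun M _ => pow_le_pow_left₀ (by positivity)
      (Int.ofNat_le.2 (fiber_le M)) 2) (sum_le_sum_of_subset_of_nonneg ?_ fun _ _ _ => sq_nonneg _)
    intro M hM
    rw [mem_lab] at hM
    exact mem_Lam.2 ⟨fun x => (hM.1 x).2, hM.2.injOn, fun x _ => (hM.1 x).1,
      fun x hx => absurd (mem_univ x) hx⟩
  have h3 : (Fintype.card P).factorial ≤ (labelings P).card := by
    rw [← Fintype.card_equiv (Fintype.equivFin P), ← card_univ]
    refine card_le_card_of_injOn (fun e x => (e x).val + 1) ?_ ?_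
    · intro e _
      refine mem_coe.2 (mem_lab.2 ⟨fun x => ⟨Nat.le_add_left _ _, (e x).isLt⟩, fun x y h => ?_⟩)
      exact e.injective (Fin.ext (by simpa using h))
    · intro e _ f _ h
      ext x
      simpa using congrFun h x
  have h4 : (0 : ℚ) < (labelings P).card := by
    exact_mod_cast lt_of_lt_of_le (Nat.factorial_pos _) h3
  rw [hm, Nat.factorial_succ] at h3
  rw [card_univ] at h1
  have h5 : 6 * ∑ M ∈ labelings P, ((((labelings P).filter (fun L => promo L = M)).card : ℚ)) ^ 2
      ≤ m.factorial * (Fintype.card P * (Fintype.card P + 1) * (Fintype.card P + 2)) := by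
    exact_mod_cast (mul_le_mul_of_nonneg_left h2 (by norm_num)).trans h1
  have h6 : ((m : ℚ) + 1) * m.factorial ≤ (labelings P).card := by exact_mod_cast h3
  unfold deg
  rw [div_le_div_iff₀ h4 (by norm_num)]
  rw [hm] at h5 ⊢
  push_cast at h5 ⊢
  have h7 := mul_le_mul_of_nonneg_left h6 (by positivity : (0 : ℚ) ≤ (m + 1 + 2) * (m + 1 + 1))
  nlinarith

end Pool.Agent.Results.MP_180e15_co.Bound
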